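import Pool.Agent.H88.CSDefs
import Pool.Agent.H88.CSFinal

/-!
# The critical coupling of doubly periodic Chern-Simons vortices depends on the vortex locations

`Ω = [0,n) × [0,1)` is the fundamental cell of the lattice generated by `(n,0)` and `(0,1)`, and
`N = n`. We compare `n` coincident vortices at the origin with the `n` vortices
`(0,0), (1,0), ..., (n-1,0)`.
-/

open MeasureTheory Set
open Pool.Agent.H88.CS

namespace Pool.Agent.Results.MP_277989_mp.LocationDependence

/-- Sanity check: for these lattices the cell is the rectangle `[0,n) × [0,1)`, of area `n`. -/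
theorem cell_and_area (n : ℕ) (hn : 1 ≤ n) :
    cell ((n : ℝ), 0) (0, 1) = Ico (0 : ℝ) n ×ˢ Ico (0 : ℝ) 1 ∧ area ((n : ℝ), 0) (0, 1) = n :=
  ⟨cell_nat hn, area_eq (by exact_mod_cast hn)⟩

/-- Sanity check: the vortex points lie in the cell. -/
theorem points_mem (n : ℕ) (j : Fin n) :
    ((0 : ℝ), (0 : ℝ)) ∈ cell ((n : ℝ), 0) (0, 1) ∧
      (((j : ℕ) : ℝ), (0 : ℝ)) ∈ cell ((n : ℝ), 0) (0, 1) := by
  have hj : (j : ℕ) < n := j.2
  have hn : 1 ≤ n := by omega
  have hjr : ((j : ℕ) : ℝ) < n := by exact_mod_cast hj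
  have hn0 : (0 : ℝ) < n := by exact_mod_cast hn
  rw [cell_nat hn]
  simp only [mem_prod, mem_Ico, le_refl, zero_lt_one, and_self, and_true, true_and]
  exact ⟨hn0, by positivity, hjr⟩

/-- Sanity check: for both configurations the set of admissible couplings is nonempty and bounded
above, so that the supremum defining the critical coupling is a genuine one. -/
theorem coupling_sets_ok (n : ℕ) (hn : 1 ≤ n) :
    ({κ : ℝ | 0 < κ ∧ ∃ u, IsSolution ((n : ℝ), 0) (0, 1)
        (fun _ : Fin n => ((0 : ℝ), (0 : ℝ))) κ u}.Nonempty ∧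
      BddAbove {κ : ℝ | 0 < κ ∧ ∃ u, IsSolution ((n : ℝ), 0) (0, 1)
        (fun _ : Fin n => ((0 : ℝ), (0 : ℝ))) κ u}) ∧
    ({κ : ℝ | 0 < κ ∧ ∃ u, IsSolution ((n : ℝ), 0) (0, 1)
        (fun j : Fin n => (((j : ℕ) : ℝ), (0 : ℝ))) κ u}.Nonempty ∧
      BddAbove {κ : ℝ | 0 < κ ∧ ∃ u, IsSolution ((n : ℝ), 0) (0, 1)
        (fun j : Fin n => (((j : ℕ) : ℝ), (0 : ℝ))) κ u}) := by
  have hn0 : (0 : ℝ) < n := by exact_mod_cast hn
  obtain ⟨κ₁, h1, h2⟩ := exists_coincident hn
  obtain ⟨κ₂, h3, h4⟩ := exists_spread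
  exact ⟨⟨⟨κ₁, h1, h2⟩, bddAbove_coupling hn0 hn _⟩, ⟨⟨κ₂, h3, h4 n hn⟩, bddAbove_coupling hn0 hn _⟩⟩

/-- For every constant `C` and all sufficiently large `n`, on the torus with cell
`Ω = [0,n) × [0,1)` and with `N = n` vortices, the critical coupling for `n` coincident vortices at
the origin is positive, and `C` times it is smaller than the critical coupling for the vortices
`(0,0), (1,0), ..., (n-1,0)`. In particular (`C = 1`) the two critical couplings differ. -/
theorem result : ∀ C : ℝ, ∃ n₀ : ℕ, ∀ n : ℕ, n₀ ≤ n →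
    0 < criticalCoupling ((n : ℝ), 0) (0, 1) (fun _ : Fin n => ((0 : ℝ), (0 : ℝ))) ∧
    C * criticalCoupling ((n : ℝ), 0) (0, 1) (fun _ : Fin n => ((0 : ℝ), (0 : ℝ))) <
      criticalCoupling ((n : ℝ), 0) (0, 1) (fun j : Fin n => (((j : ℕ) : ℝ), (0 : ℝ))) :=
  main

end Pool.Agent.Results.MP_277989_mp.LocationDependence
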